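import Pool.Agent.Q41.TB.Core

/-!
# From connectivity of families to toric ideals
-/

open Finset MvPolynomial

namespace Q41.TB

variable (K : Type*) [Field K] {V : Type*} (B : Set (V →₀ ℕ))

/-- The monomial map `z_w ↦ x^w`. -/
noncomputable def toricMap : MvPolynomial B K →ₐ[K] MvPolynomial V K :=
  aeval (fun w : B => monomial w.1 (1 : K))

/-- The toric ideal: kernel of the monomial map. -/
noncomputable def toricIdeal : Ideal (MvPolynomial B K) := RingHom.ker (toricMap K B)

/-- Symmetric exchange binomials. -/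
def exchangeBinomials : Set (MvPolynomial B K) :=
  {f | ∃ (w w' w₀ w₀' : B) (ξ ρ : V), w'.1 ξ < w.1 ξ ∧ w.1 ρ < w'.1 ρ ∧
    w₀.1 + Finsupp.single ξ 1 = w.1 + Finsupp.single ρ 1 ∧
    w₀'.1 + Finsupp.single ρ 1 = w'.1 + Finsupp.single ξ 1 ∧
    f = X w * X w' - X w₀ * X w₀'}

lemma toricMap_X (w : B) : toricMap K B (X w) = monomial w.1 1 := by
  simp [toricMap]

lemma exchange_le : Ideal.span (exchangeBinomials K B) ≤ toricIdeal K B := by
  rw [Ideal.span_le]
  rintro f ⟨w, w', w₀, w₀', ξ, ρ, -, -, h1, h2, rfl⟩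
  show toricMap K B (X w * X w' - X w₀ * X w₀') = 0
  rw [map_sub, map_mul, map_mul]
  simp only [toricMap_X, monomial_mul, mul_one]
  have h3 : w₀.1 + w₀'.1 = w.1 + w'.1 := by
    have : (w₀.1 + w₀'.1) + (Finsupp.single ξ 1 + Finsupp.single ρ 1)
        = (w.1 + w'.1) + (Finsupp.single ξ 1 + Finsupp.single ρ 1) := by
      calc (w₀.1 + w₀'.1) + (Finsupp.single ξ 1 + Finsupp.single ρ 1)
          = (w₀.1 + Finsupp.single ξ 1) + (w₀'.1 + Finsupp.single ρ 1) := by abel
        _ = (w.1 + Finsupp.single ρ 1) + (w'.1 + Finsupp.single ξ 1) := by rw [h1, h2]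
        _ = _ := by abel
    exact add_right_cancel this
  rw [h3, sub_self]

lemma exists_family {β : Type*} (α : β →₀ ℕ) :
    ∃ (n : ℕ) (u : Fin n → β), α = ∑ k, Finsupp.single (u k) 1 := by
  induction α using Finsupp.induction_linear with
  | zero => exact ⟨0, Fin.elim0, by simp⟩
  | add f g hf hg =>
    obtain ⟨n, u, hu⟩ := hf
    obtain ⟨m, v, hv⟩ := hg
    refine ⟨n + m, Fin.append u v, ?_⟩
    rw [Fin.sum_univ_add]
    simp only [Fin.append_left, Fin.append_right]
    rw [hu, hv]
  | single a k =>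
    refine ⟨k, fun _ => a, ?_⟩
    simp

/-- If monomials with the same image are congruent modulo `I`, then the toric ideal is in `I`. -/
lemma toric_le (I : Ideal (MvPolynomial B K))
    (h : ∀ α β : B →₀ ℕ, toricMap K B (monomial α 1) = toricMap K B (monomial β 1) →
      (monomial α (1 : K) - monomial β 1) ∈ I)
    (him : ∀ α : B →₀ ℕ, ∃ m : V →₀ ℕ, toricMap K B (monomial α 1) = monomial m 1) :
    toricIdeal K B ≤ I := by
  classical
  let r : (V →₀ ℕ) → (B →₀ ℕ) := fun m =>
    if h : ∃ α : B →₀ ℕ, toricMap K B (monomial α 1) = monomial m 1 then h.choose else 0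
  let s : MvPolynomial V K →ₗ[K] MvPolynomial B K :=
    (basisMonomials V K).constr K (fun m => monomial (r m) (1 : K))
  have hs : ∀ m : V →₀ ℕ, s (monomial m 1) = monomial (r m) 1 := by
    intro m
    have h1 := (basisMonomials V K).constr_basis K (fun m => monomial (r m) (1 : K)) m
    rw [coe_basisMonomials] at h1
    exact h1
  have hr : ∀ α : B →₀ ℕ, ∀ m : V →₀ ℕ, toricMap K B (monomial α 1) = monomial m 1 →
      (monomial α (1 : K) - monomial (r m) 1) ∈ I := by
    intro α m hm
    refine h α (r m) ?_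
    have hex : ∃ α : B →₀ ℕ, toricMap K B (monomial α 1) = monomial m 1 := ⟨α, hm⟩
    have : r m = hex.choose := by
      show (if h : ∃ α : B →₀ ℕ, toricMap K B (monomial α 1) = monomial m 1
        then h.choose else 0) = _
      rw [dif_pos hex]
    rw [this, hex.choose_spec, hm]
  have key : ∀ p : MvPolynomial B K, p - s (toricMap K B p) ∈ I := by
    intro p
    induction p using MvPolynomial.induction_on' with
    | monomial u a =>
      obtain ⟨m, hm⟩ := him u
      have h1 : (monomial u a : MvPolynomial B K) = a • monomial u (1 : K) := by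
        rw [smul_monomial, smul_eq_mul, mul_one]
      rw [h1, map_smul, map_smul, hm, hs, ← smul_sub, MvPolynomial.smul_eq_C_mul]
      exact I.mul_mem_left _ (hr u m hm)
    | add p q hp hq =>
      rw [map_add, map_add]
      have : p + q - (s (toricMap K B p) + s (toricMap K B q))
          = (p - s (toricMap K B p)) + (q - s (toricMap K B q)) := by ring
      rw [this]
      exact I.add_mem hp hq
  intro p hp
  have h1 : toricMap K B p = 0 := hp
  have h2 := key p
  rw [h1, map_zero, sub_zero] at h2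
  exact h2

lemma toricMap_family {n : ℕ} (u : Fin n → B) :
    toricMap K B (monomial (∑ k, Finsupp.single (u k) 1) 1) = monomial (∑ k, (u k).1) 1 := by
  rw [monomial_sum_one, monomial_sum_one, map_prod]
  refine Finset.prod_congr rfl fun k _ => ?_
  exact toricMap_X K B (u k)

variable [Fintype V] [DecidableEq V]

/-- Main algebraic statement. -/
theorem toric_eq (d : ℕ) (hd : 0 < d) (hdeg : ∀ w ∈ B, ∑ x, w x = d)
    (hB : PairProp {a : V → ℕ | ∃ w ∈ B, ⇑w = a}) :
    toricIdeal K B = Ideal.span (exchangeBinomials K B) := by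
  classical
  apply le_antisymm _ (exchange_le K B)
  set I := Ideal.span (exchangeBinomials K B) with hI
  refine toric_le K B I ?_ ?_
  · intro α β hαβ
    obtain ⟨n, u, rfl⟩ := exists_family α
    obtain ⟨m, v, rfl⟩ := exists_family β
    rw [toricMap_family, toricMap_family] at hαβ
    have h1 : ∑ k, (u k).1 = ∑ k, (v k).1 :=
      monomial_left_injective (one_ne_zero) hαβ
    have h2 : ∀ x, ∑ k, (u k).1 x = ∑ k, (v k).1 x := by
      intro x
      have := DFunLike.congr_fun h1 x
      simpa [Finsupp.finsetSum_apply] using this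
    have hnm : n = m := by
      have e1 : ∑ x, ∑ k, (u k).1 x = n * d := by
        rw [Finset.sum_comm]
        rw [Finset.sum_congr rfl (fun k _ => hdeg (u k).1 (u k).2)]
        simp
      have e2 : ∑ x, ∑ k, (v k).1 x = m * d := by
        rw [Finset.sum_comm]
        rw [Finset.sum_congr rfl (fun k _ => hdeg (v k).1 (v k).2)]
        simp
      have e3 : n * d = m * d := by
        rw [← e1, ← e2]
        exact Finset.sum_congr rfl fun x _ => h2 x
      exact Nat.eq_of_mul_eq_mul_right hd e3
    subst hnm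
    -- the class of a vector
    let Z : (V → ℕ) → MvPolynomial B K ⧸ I := fun a =>
      if h : ∃ w : B, ⇑w.1 = a then Ideal.Quotient.mk I (X h.choose) else 0
    have hZ : ∀ w : B, Z (⇑w.1) = Ideal.Quotient.mk I (X w) := by
      intro w
      have hex : ∃ w' : B, ⇑w'.1 = ⇑w.1 := ⟨w, rfl⟩
      have h3 : hex.choose = w := Subtype.ext (DFunLike.coe_injective hex.choose_spec)
      show (if h : ∃ w' : B, ⇑w'.1 = ⇑w.1 then Ideal.Quotient.mk I (X h.choose) else 0) = _
      rw [dif_pos hex, h3]
    let F : (Fin n → V → ℕ) → MvPolynomial B K ⧸ I := fun b => ∏ k, Z (b k)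
    have hF : ∀ b b' i j x y, Step {a : V → ℕ | ∃ w ∈ B, ⇑w = a} b b' i j x y → F b = F b' := by
      intro b b' i j x y hst
      have hsplit : ∀ g : Fin n → MvPolynomial B K ⧸ I,
          ∏ k, g k = g i * g j * ∏ k ∈ (univ.erase i).erase j, g k := by
        intro g
        rw [mul_assoc, Finset.mul_prod_erase _ _ (Finset.mem_erase.2 ⟨hst.ne.symm, Finset.mem_univ _⟩),
          Finset.mul_prod_erase _ _ (Finset.mem_univ _)]
      show ∏ k, Z (b k) = ∏ k, Z (b' k)
      rw [hsplit, hsplit (fun k => Z (b' k))]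
      have hrest : ∏ k ∈ (univ.erase i).erase j, Z (b k)
          = ∏ k ∈ (univ.erase i).erase j, Z (b' k) := by
        refine Finset.prod_congr rfl fun k hk => ?_
        rw [Finset.mem_erase, Finset.mem_erase] at hk
        rw [hst.hk k hk.2.1 hk.1]
      rw [hrest]
      congr 1
      obtain ⟨w, hw, hwi⟩ := hst.mem i
      obtain ⟨w', hw', hwj⟩ := hst.mem j
      obtain ⟨w₀, hw₀, hwi'⟩ := hst.mem' i
      obtain ⟨w₀', hw₀', hwj'⟩ := hst.mem' j
      rw [← hwi, ← hwj, ← hwi', ← hwj', hZ ⟨w, hw⟩, hZ ⟨w', hw'⟩, hZ ⟨w₀, hw₀⟩, hZ ⟨w₀', hw₀'⟩,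
        ← map_mul, ← map_mul, Ideal.Quotient.eq]
      apply Ideal.subset_span
      refine ⟨⟨w, hw⟩, ⟨w', hw'⟩, ⟨w₀, hw₀⟩, ⟨w₀', hw₀'⟩, x, y, ?_, ?_, ?_, ?_, rfl⟩
      · have := hst.hx
        rw [← hwi, ← hwj] at this
        exact this
      · have := hst.hy
        rw [← hwi, ← hwj] at this
        exact this
      · ext z
        have := hst.hi z
        rw [← hwi, ← hwi'] at this
        simp only [Finsupp.add_apply, Finsupp.single_apply, eq_comm (b := z)]
        exact this
      · ext z
        have := hst.hj z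
        rw [← hwj, ← hwj'] at this
        simp only [Finsupp.add_apply, Finsupp.single_apply, eq_comm (b := z)]
        exact this
    have hcore := core {a : V → ℕ | ∃ w ∈ B, ⇑w = a} F hB d
      (by rintro a ⟨w, hw, rfl⟩; exact hdeg w hw) hF (fun k => ⇑(u k).1) (fun k => ⇑(v k).1)
      (fun k => ⟨(u k).1, (u k).2, rfl⟩) (fun k => ⟨(v k).1, (v k).2, rfl⟩) h2
    have hFu : ∀ u : Fin n → B, F (fun k => ⇑(u k).1)
        = Ideal.Quotient.mk I (monomial (∑ k, Finsupp.single (u k) 1) 1) := by
      intro u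
      rw [monomial_sum_one, map_prod]
      exact Finset.prod_congr rfl fun k _ => hZ (u k)
    rw [hFu, hFu, Ideal.Quotient.eq] at hcore
    exact hcore
  · intro α
    obtain ⟨n, u, rfl⟩ := exists_family α
    exact ⟨_, toricMap_family K B u⟩

end Q41.TB
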