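import Mathlib

/-!
# The union of two matchings is bipartite
-/

namespace Q41.TB

/-- Two fixed point free involutions have a common proper 2-colouring. -/
theorem two_colour {X : Type*} (σ τ : X → X) (hσ : ∀ x, σ (σ x) = x) (hτ : ∀ x, τ (τ x) = x)
    (hσ' : ∀ x, σ x ≠ x) (hτ' : ∀ x, τ x ≠ x) :
    ∃ f : X → Bool, (∀ x, f (σ x) = !f x) ∧ ∀ x, f (τ x) = !f x := by
  classical
  let s : Equiv.Perm X := ⟨σ, σ, hσ, hσ⟩
  let t : Equiv.Perm X := ⟨τ, τ, hτ, hτ⟩
  let g : Equiv.Perm X := t * s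
  have hs : ∀ x, s x = σ x := fun _ => rfl
  have ht : ∀ x, t x = τ x := fun _ => rfl
  have hsinv : s⁻¹ = s := rfl
  have htinv : t⁻¹ = t := rfl
  have hconj : s * g * s⁻¹ = g⁻¹ := by
    show s * (t * s) * s⁻¹ = (t * s)⁻¹
    rw [mul_inv_rev, htinv, hsinv]
    ext x
    simp only [Equiv.Perm.mul_apply]
    rw [hs (s x), hs x, hσ]
  have hk : ∀ (k : ℤ) (x : X), (g ^ k) (σ x) = σ ((g ^ (-k)) x) := by
    intro k x
    have h1 : s * g ^ (-k) * s⁻¹ = g ^ k := by
      rw [← conj_zpow, hconj, inv_zpow, zpow_neg, inv_inv]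
    rw [← h1]
    simp only [Equiv.Perm.mul_apply]
    rw [hsinv, hs (σ x), hσ, hs]
  have hne : ∀ x, ¬ Equiv.Perm.SameCycle g x (σ x) := by
    rintro x ⟨k, hkx⟩
    rcases Int.even_or_odd' k with ⟨m, rfl | rfl⟩
    · have h1 : (g ^ (-m)) ((g ^ (2 * m)) x) = (g ^ (-m)) (σ x) := by rw [hkx]
      rw [← Equiv.Perm.mul_apply, ← zpow_add, hk] at h1
      have h2 : -m + 2 * m = m := by ring
      rw [h2, neg_neg] at h1
      exact hσ' _ h1.symm
    · have h1 : (g ^ (-m)) ((g ^ (2 * m + 1)) x) = (g ^ (-m)) (σ x) := by rw [hkx]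
      rw [← Equiv.Perm.mul_apply, ← zpow_add, hk] at h1
      have h2 : -m + (2 * m + 1) = 1 + m := by ring
      rw [h2, neg_neg, zpow_add, zpow_one] at h1
      have h3 : τ (σ ((g ^ m) x)) = σ ((g ^ m) x) := h1
      exact hτ' _ h3
  let Q := Quotient (Equiv.Perm.SameCycle.setoid g)
  let π : X → Q := fun x => Quotient.mk _ x
  have hπ : ∀ x y, π x = π y ↔ Equiv.Perm.SameCycle g x y := fun x y => Quotient.eq
  have h1 : ∀ x, π (σ x) ≠ π x := fun x h => hne x ((hπ _ _).1 h.symm)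
  have h2 : ∀ x, π (τ x) = π (σ x) := by
    intro x
    refine ((hπ _ _).2 ⟨1, ?_⟩).symm
    rw [zpow_one]
    show τ (σ (σ x)) = τ x
    rw [hσ]
  have h3 : ∀ x, π (σ (τ x)) = π x := by
    intro x
    refine ((hπ _ _).2 ⟨1, ?_⟩)
    rw [zpow_one]
    show τ (σ (σ (τ x))) = x
    rw [hσ, hτ]
  have key : ∀ a b : Q, a ≠ b →
      decide (WellOrderingRel b a) = !decide (WellOrderingRel a b) := by
    intro a b hab
    rcases trichotomous_of (r := WellOrderingRel) a b with h | h | h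
    · have h' : ¬ WellOrderingRel b a := asymm_of (r := WellOrderingRel) h
      simp [h, h']
    · exact absurd h hab
    · have h' : ¬ WellOrderingRel a b := asymm_of (r := WellOrderingRel) h
      simp [h, h']
  refine ⟨fun x => decide (WellOrderingRel (π x) (π (σ x))), fun x => ?_, fun x => ?_⟩
  · simp only [hσ]
    exact key _ _ (h1 x).symm
  · simp only [h2, h3]
    exact key _ _ (h1 x).symm

/-- A matching, extended to a fixed point free involution of the doubled set. -/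
lemma matching_invol {V : Type*} {m : ℕ} (p q : Fin m → V) (hp : Function.Injective p)
    (hq : Function.Injective q) (hpq : ∀ i j, p i ≠ q j) :
    ∃ σ : V × Bool → V × Bool, (∀ x, σ (σ x) = x) ∧ (∀ x, σ x ≠ x) ∧
      ∀ i, σ (p i, false) = (q i, false) := by
  classical
  let σ : V × Bool → V × Bool := fun z =>
    if h : ∃ i, p i = z.1 then (q h.choose, z.2)
    else if h : ∃ i, q i = z.1 then (p h.choose, z.2) else (z.1, !z.2)
  have hσp : ∀ i ε, σ (p i, ε) = (q i, ε) := by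
    intro i ε
    have h : ∃ j, p j = (p i, ε).1 := ⟨i, rfl⟩
    show (if h : ∃ j, p j = (p i, ε).1 then (q h.choose, ε) else _) = _
    rw [dif_pos h, hp h.choose_spec]
  have hσq : ∀ i ε, σ (q i, ε) = (p i, ε) := by
    intro i ε
    have h0 : ¬ ∃ j, p j = (q i, ε).1 := by
      rintro ⟨j, hj⟩
      exact hpq j i hj
    have h : ∃ j, q j = (q i, ε).1 := ⟨i, rfl⟩
    show (if h : ∃ j, p j = (q i, ε).1 then (q h.choose, ε)
      else if h : ∃ j, q j = (q i, ε).1 then (p h.choose, ε) else _) = _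
    rw [dif_neg h0, dif_pos h, hq h.choose_spec]
  have hσ0 : ∀ v ε, (¬ ∃ j, p j = v) → (¬ ∃ j, q j = v) → σ (v, ε) = (v, !ε) := by
    intro v ε h1 h2
    show (if h : ∃ j, p j = v then (q h.choose, ε)
      else if h : ∃ j, q j = v then (p h.choose, ε) else (v, !ε)) = _
    rw [dif_neg h1, dif_neg h2]
  refine ⟨σ, ?_, ?_, fun i => hσp i false⟩
  · rintro ⟨v, ε⟩
    by_cases h1 : ∃ j, p j = v
    · obtain ⟨j, rfl⟩ := h1
      rw [hσp, hσq]
    · by_cases h2 : ∃ j, q j = v
      · obtain ⟨j, rfl⟩ := h2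
        rw [hσq, hσp]
      · rw [hσ0 v ε h1 h2, hσ0 v _ h1 h2, Bool.not_not]
  · rintro ⟨v, ε⟩ h
    by_cases h1 : ∃ j, p j = v
    · obtain ⟨j, rfl⟩ := h1
      rw [hσp] at h
      exact hpq j j (congrArg Prod.fst h).symm
    · by_cases h2 : ∃ j, q j = v
      · obtain ⟨j, rfl⟩ := h2
        rw [hσq] at h
        exact hpq j j (congrArg Prod.fst h)
      · rw [hσ0 v ε h1 h2] at h
        have := congrArg Prod.snd h
        simp at this

/-- The union of two matchings has a proper 2-colouring. -/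
theorem two_matchings {V : Type*} {m m' : ℕ} (p q : Fin m → V) (p' q' : Fin m' → V)
    (hp : Function.Injective p) (hq : Function.Injective q) (hpq : ∀ i j, p i ≠ q j)
    (hp' : Function.Injective p') (hq' : Function.Injective q') (hpq' : ∀ i j, p' i ≠ q' j) :
    ∃ f : V → Bool, (∀ i, f (q i) = !f (p i)) ∧ ∀ i, f (q' i) = !f (p' i) := by
  obtain ⟨σ, h1, h2, h3⟩ := matching_invol p q hp hq hpq
  obtain ⟨τ, k1, k2, k3⟩ := matching_invol p' q' hp' hq' hpq'
  obtain ⟨f, hf1, hf2⟩ := two_colour σ τ h1 k1 h2 k2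
  refine ⟨fun v => f (v, false), fun i => ?_, fun i => ?_⟩
  · show f (q i, false) = !f (p i, false)
    rw [← h3, hf1]
  · show f (q' i, false) = !f (p' i, false)
    rw [← k3, hf2]

end Q41.TB
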