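import Pool.Agent.Q41.TB.Pair
import Pool.Agent.Q41.TB.Colour

/-!
# Connecting two families with the same sum by strict symmetric exchanges
-/

open Finset

namespace Q41.TB

variable {V : Type*} [DecidableEq V]

/-- number of indices in `S` with `p i = x` -/
def cnt {m : ℕ} (S : Finset (Fin m)) (p : Fin m → V) (x : V) : ℕ :=
  (S.filter (fun i => p i = x)).card

lemma cnt_mono {m : ℕ} {S T : Finset (Fin m)} (h : S ⊆ T) (p : Fin m → V) (x : V) :
    cnt S p x ≤ cnt T p x := Finset.card_le_card (Finset.filter_subset_filter _ h)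

lemma cnt_insert {m : ℕ} {S : Finset (Fin m)} {k : Fin m} (h : k ∉ S) (p : Fin m → V) (x : V) :
    cnt (insert k S) p x = cnt S p x + if p k = x then 1 else 0 := by
  unfold cnt
  rw [Finset.filter_insert]
  split_ifs with h1
  · rw [Finset.card_insert_of_notMem (by simp [h])]
  · simp

lemma cnt_empty {m : ℕ} (p : Fin m → V) (x : V) : cnt ∅ p x = 0 := by simp [cnt]

lemma cnt_compl {m : ℕ} (S : Finset (Fin m)) (p : Fin m → V) (x : V) :
    cnt S p x + cnt Sᶜ p x = cnt univ p x := by
  unfold cnt
  rw [← Finset.card_union_of_disjoint, ← Finset.filter_union, Finset.union_compl]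
  exact Finset.disjoint_filter_filter disjoint_compl_right

/-- The pairing property of a set of vectors. -/
def PairProp (B : Set (V → ℕ)) : Prop :=
  ∀ a ∈ B, ∀ b ∈ B, ∃ (m : ℕ) (p q : Fin m → V),
      (∀ x, cnt univ p x = a x - b x) ∧ (∀ x, cnt univ q x = b x - a x) ∧
      ∀ S : Finset (Fin m), (fun x => a x - cnt S p x + cnt S q x) ∈ B

lemma PairProp.both {B : Set (V → ℕ)} (hB : PairProp B) (a b : V → ℕ) (ha : a ∈ B) (hb : b ∈ B) :
    ∃ (m : ℕ) (p q : Fin m → V),
      (∀ x, cnt univ p x = a x - b x) ∧ (∀ x, cnt univ q x = b x - a x) ∧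
      ∀ S : Finset (Fin m), (fun x => a x - cnt S p x + cnt S q x) ∈ B ∧
        (fun x => b x - cnt S q x + cnt S p x) ∈ B := by
  obtain ⟨m, p, q, h1, h2, h3⟩ := hB a ha b hb
  refine ⟨m, p, q, h1, h2, fun S => ⟨h3 S, ?_⟩⟩
  have : (fun x => b x - cnt S q x + cnt S p x)
      = (fun x => a x - cnt Sᶜ p x + cnt Sᶜ q x) := by
    funext x
    have e1 := cnt_compl S p x
    have e2 := cnt_compl S q x
    rw [h1] at e1
    rw [h2] at e2
    omega
  rw [this]
  exact h3 _

/-- A strict symmetric exchange between the entries `i`, `j` of a family. -/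
structure Step {ι : Type*} (B : Set (V → ℕ)) (b b' : ι → V → ℕ) (i j : ι) (x y : V) : Prop where
  ne : i ≠ j
  mem : ∀ k, b k ∈ B
  mem' : ∀ k, b' k ∈ B
  hx : b j x < b i x
  hy : b i y < b j y
  hi : ∀ z, b' i z + (if z = x then 1 else 0) = b i z + (if z = y then 1 else 0)
  hj : ∀ z, b' j z + (if z = y then 1 else 0) = b j z + (if z = x then 1 else 0)
  hk : ∀ k, k ≠ i → k ≠ j → b' k = b k

section

variable {ι : Type*} [DecidableEq ι]

/-- change the two entries `i`, `j` -/
def upd (b : ι → V → ℕ) (i j : ι) (u v : V → ℕ) : ι → V → ℕ :=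
  Function.update (Function.update b i u) j v

omit [DecidableEq V] in
lemma upd_i (b : ι → V → ℕ) {i j : ι} (h : i ≠ j) (u v : V → ℕ) : upd b i j u v i = u := by
  simp [upd, h]

omit [DecidableEq V] in
lemma upd_j (b : ι → V → ℕ) (i j : ι) (u v : V → ℕ) : upd b i j u v j = v := by
  simp [upd]

omit [DecidableEq V] in
lemma upd_k (b : ι → V → ℕ) {i j k : ι} (h1 : k ≠ i) (h2 : k ≠ j) (u v : V → ℕ) :
    upd b i j u v k = b k := by
  simp [upd, h1, h2]

omit [DecidableEq V] in
lemma upd_mem {B : Set (V → ℕ)} (b : ι → V → ℕ) {i j : ι} (h : i ≠ j) {u v : V → ℕ}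
    (hb : ∀ k, b k ∈ B) (hu : u ∈ B) (hv : v ∈ B) (k : ι) : upd b i j u v k ∈ B := by
  by_cases h1 : k = i
  · subst h1
    rw [upd_i b h]
    exact hu
  · by_cases h2 : k = j
    · subst h2
      rw [upd_j]
      exact hv
    · rw [upd_k b h1 h2]
      exact hb k

lemma sum_two {ι : Type*} [Fintype ι] [DecidableEq ι] (g g' : ι → ℕ) (i j : ι) (hij : i ≠ j)
    (h : ∀ k, k ≠ i → k ≠ j → g' k = g k) :
    ∑ k, g' k + (g i + g j) = ∑ k, g k + (g' i + g' j) := by
  have h1 : ∀ f : ι → ℕ, ∑ k, f k = f i + (f j + ∑ k ∈ (univ.erase i).erase j, f k) := by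
    intro f
    rw [Finset.add_sum_erase _ _ (Finset.mem_erase.2 ⟨hij.symm, Finset.mem_univ _⟩),
      Finset.add_sum_erase _ _ (Finset.mem_univ _)]
  have h2 : ∑ k ∈ (univ.erase i).erase j, g' k = ∑ k ∈ (univ.erase i).erase j, g k := by
    refine Finset.sum_congr rfl fun k hk => ?_
    rw [Finset.mem_erase, Finset.mem_erase] at hk
    exact h k hk.2.1 hk.1
  rw [h1 g, h1 g', h2]
  ring

variable {γ : Type*} (B : Set (V → ℕ)) (F : (ι → V → ℕ) → γ)

/-- all subsets of the pairing can be exchanged, if the two vectors differ by at most one -/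
lemma exchange_all (hF : ∀ b b' i j x y, Step B b b' i j x y → F b = F b')
    (b : ι → V → ℕ) (hb : ∀ k, b k ∈ B) (i j : ι) (hij : i ≠ j)
    (h1 : ∀ x, b i x ≤ b j x + 1) (h2 : ∀ x, b j x ≤ b i x + 1) {m : ℕ} (p q : Fin m → V)
    (hp : ∀ x, cnt univ p x = b i x - b j x) (hq : ∀ x, cnt univ q x = b j x - b i x)
    (hS : ∀ S : Finset (Fin m), (fun x => b i x - cnt S p x + cnt S q x) ∈ B ∧
        (fun x => b j x - cnt S q x + cnt S p x) ∈ B) (S : Finset (Fin m)) :
    F b = F (upd b i j (fun x => b i x - cnt S p x + cnt S q x)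
      (fun x => b j x - cnt S q x + cnt S p x)) := by
  induction S using Finset.induction_on with
  | empty =>
    congr 1
    funext k
    by_cases hk1 : k = i
    · subst hk1
      rw [upd_i b hij]
      simp [cnt_empty]
    · by_cases hk2 : k = j
      · subst hk2
        rw [upd_j]
        simp [cnt_empty]
      · rw [upd_k b hk1 hk2]
  | insert k S hk ih =>
    rw [ih]
    have cp : ∀ z, cnt (insert k S) p z ≤ b i z - b j z := fun z => by
      rw [← hp]; exact cnt_mono (Finset.subset_univ _) p z
    have cq : ∀ z, cnt (insert k S) q z ≤ b j z - b i z := fun z => by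
      rw [← hq]; exact cnt_mono (Finset.subset_univ _) q z
    have cp' := fun z => cnt_insert hk p z
    have cq' := fun z => cnt_insert hk q z
    refine hF _ _ i j (p k) (q k) ⟨hij, upd_mem b hij hb (hS S).1 (hS S).2,
      upd_mem b hij hb (hS _).1 (hS _).2, ?_, ?_, ?_, ?_, ?_⟩
    · rw [upd_i b hij, upd_j]
      have e1 := cp (p k)
      have e2 := cp' (p k)
      have e3 := cq (p k)
      have e4 := cq' (p k)
      have e5 := h1 (p k)
      rw [if_pos rfl] at e2
      omega
    · rw [upd_i b hij, upd_j]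
      have e1 := cp (q k)
      have e2 := cp' (q k)
      have e3 := cq (q k)
      have e4 := cq' (q k)
      have e5 := h2 (q k)
      rw [if_pos rfl] at e4
      omega
    · intro z
      rw [upd_i b hij, upd_i b hij]
      have e1 := cp z
      have e2 := cp' z
      have e3 := cq z
      have e4 := cq' z
      simp only [eq_comm (a := z)]
      omega
    · intro z
      rw [upd_j, upd_j]
      have e1 := cp z
      have e2 := cp' z
      have e3 := cq z
      have e4 := cq' z
      simp only [eq_comm (a := z)]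
      omega
    · intro l hl1 hl2
      rw [upd_k b hl1 hl2, upd_k b hl1 hl2]

lemma cnt_colour {m : ℕ} (p q : Fin m → V) (f : V → Bool) (hf : ∀ k, f (q k) = !f (p k)) (x : V) :
    cnt (univ.filter (fun k => f (p k) = false)) p x = (if f x = false then cnt univ p x else 0) ∧
    cnt (univ.filter (fun k => f (p k) = false)) q x = (if f x = false then 0 else cnt univ q x) := by
  unfold cnt
  rw [Finset.filter_filter, Finset.filter_filter]
  constructor
  · split_ifs with h
    · congr 1
      ext k
      simp only [Finset.mem_filter, Finset.mem_univ, true_and]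
      constructor
      · rintro ⟨-, h2⟩
        exact h2
      · intro h2
        exact ⟨by rw [h2]; exact h, h2⟩
    · rw [Finset.card_eq_zero, Finset.filter_eq_empty_iff]
      rintro k - ⟨h1, h2⟩
      rw [h2] at h1
      exact h h1
  · split_ifs with h
    · rw [Finset.card_eq_zero, Finset.filter_eq_empty_iff]
      rintro k - ⟨h1, h2⟩
      have := hf k
      rw [h2, h, h1] at this
      simp at this
    · congr 1
      ext k
      simp only [Finset.mem_filter, Finset.mem_univ, true_and]
      constructor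
      · rintro ⟨-, h2⟩
        exact h2
      · intro h2
        refine ⟨?_, h2⟩
        have := hf k
        rw [h2] at this
        rw [Bool.not_eq_false] at h
        rw [h] at this
        have h3 : f (p k) = !(!f (p k)) := (Bool.not_not _).symm
        rw [h3, ← this]
        rfl

/-- sorted according to a colouring -/
def srt (f : V → Bool) (u v : V → ℕ) (x : V) : ℕ :=
  if f x = false then min (u x) (v x) else max (u x) (v x)

lemma recolour (hF : ∀ b b' i j x y, Step B b b' i j x y → F b = F b')
    (b : ι → V → ℕ) (hb : ∀ k, b k ∈ B) (i j : ι) (hij : i ≠ j)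
    (h1 : ∀ x, b i x ≤ b j x + 1) (h2 : ∀ x, b j x ≤ b i x + 1) {m : ℕ} (p q : Fin m → V)
    (hp : ∀ x, cnt univ p x = b i x - b j x) (hq : ∀ x, cnt univ q x = b j x - b i x)
    (hS : ∀ S : Finset (Fin m), (fun x => b i x - cnt S p x + cnt S q x) ∈ B ∧
        (fun x => b j x - cnt S q x + cnt S p x) ∈ B) (f : V → Bool)
    (hf : ∀ k, f (q k) = !f (p k)) :
    F b = F (upd b i j (srt f (b i) (b j)) (srt (fun x => !f x) (b i) (b j))) ∧
      srt f (b i) (b j) ∈ B ∧ srt (fun x => !f x) (b i) (b j) ∈ B := by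
  have e1 : (fun x => b i x - cnt (univ.filter (fun k => f (p k) = false)) p x
      + cnt (univ.filter (fun k => f (p k) = false)) q x) = srt f (b i) (b j) := by
    funext x
    obtain ⟨c1, c2⟩ := cnt_colour p q f hf x
    rw [c1, c2, hp, hq]
    unfold srt
    by_cases h : f x = false
    · simp only [h, if_true]
      omega
    · rw [if_neg h, if_neg h, if_neg h]
      omega
  have e2 : (fun x => b j x - cnt (univ.filter (fun k => f (p k) = false)) q x
      + cnt (univ.filter (fun k => f (p k) = false)) p x)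
      = srt (fun x => !f x) (b i) (b j) := by
    funext x
    obtain ⟨c1, c2⟩ := cnt_colour p q f hf x
    rw [c1, c2, hp, hq]
    unfold srt
    by_cases h : f x = false
    · simp only [h, if_true, Bool.not_false]
      rw [if_neg (by simp)]
      omega
    · rw [Bool.not_eq_false] at h
      simp only [h, Bool.not_true, if_true]
      rw [if_neg (by simp), if_neg (by simp)]
      omega
  have h3 := hS (univ.filter (fun k => f (p k) = false))
  have h4 := exchange_all B F hF b hb i j hij h1 h2 p q hp hq hS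
    (univ.filter (fun k => f (p k) = false))
  rw [e1, e2] at h3 h4
  exact ⟨h4, h3⟩

lemma inj_of_cnt {m : ℕ} (p : Fin m → V) (h : ∀ x, cnt univ p x ≤ 1) : Function.Injective p := by
  intro k l hkl
  have := h (p k)
  unfold cnt at this
  rw [Finset.card_le_one] at this
  exact this k (by simp) l (by simp [hkl])

lemma ne_of_cnt {m : ℕ} (p q : Fin m → V) (u v : V → ℕ) (hp : ∀ x, cnt univ p x = u x - v x)
    (hq : ∀ x, cnt univ q x = v x - u x) (k l : Fin m) : p k ≠ q l := by
  intro h
  have e1 : 0 < cnt univ p (p k) := Finset.card_pos.2 ⟨k, by simp⟩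
  have e2 : 0 < cnt univ q (q l) := Finset.card_pos.2 ⟨l, by simp⟩
  rw [hp] at e1
  rw [hq, ← h] at e2
  omega

section Main

variable [Fintype V] {ι : Type*} [Fintype ι] [DecidableEq ι]
variable {γ : Type*} (B : Set (V → ℕ)) (F : (ι → V → ℕ) → γ)

/-- Balancing: every family is connected to a balanced one. -/
lemma balance (hB : PairProp B) (hF : ∀ b b' i j x y, Step B b b' i j x y → F b = F b') :
    ∀ n : ℕ, ∀ b : ι → V → ℕ, (∀ k, b k ∈ B) → (∑ k, ∑ x, (b k x) ^ 2 = n) →
      ∃ b' : ι → V → ℕ, (∀ k, b' k ∈ B) ∧ F b = F b' ∧ (∀ x, ∑ k, b' k x = ∑ k, b k x) ∧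
        ∀ i j x, b' i x ≤ b' j x + 1 := by
  intro n
  induction n using Nat.strong_induction_on with
  | _ n ih =>
  intro b hb hn
  by_cases hbal : ∀ i j x, b i x ≤ b j x + 1
  · exact ⟨b, hb, rfl, fun _ => rfl, hbal⟩
  push Not at hbal
  obtain ⟨i, j, x, hx⟩ := hbal
  have hij : i ≠ j := by
    rintro rfl
    omega
  obtain ⟨m, p, q, hp, hq, hS⟩ := hB.both (b i) (b j) (hb i) (hb j)
  have hpos : 0 < cnt univ p x := by rw [hp]; omega
  obtain ⟨k, hk⟩ := Finset.card_pos.1 hpos
  have hpk : p k = x := (Finset.mem_filter.1 hk).2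
  set y := q k with hy
  have hqy : 0 < cnt univ q y := Finset.card_pos.2 ⟨k, by simp [hy]⟩
  rw [hq] at hqy
  have hxy : x ≠ y := by
    intro h
    rw [← h] at hqy
    omega
  have hcp : ∀ z, cnt {k} p z = if z = x then 1 else 0 := by
    intro z
    have := cnt_insert (Finset.notMem_empty k) p z
    rw [cnt_empty, hpk] at this
    rw [show ({k} : Finset (Fin m)) = insert k ∅ from rfl, this]
    simp [eq_comm]
  have hcq : ∀ z, cnt {k} q z = if z = y then 1 else 0 := by
    intro z
    have := cnt_insert (Finset.notMem_empty k) q z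
    rw [cnt_empty, ← hy] at this
    rw [show ({k} : Finset (Fin m)) = insert k ∅ from rfl, this]
    simp [eq_comm]
  set u : V → ℕ := fun z => b i z - cnt {k} p z + cnt {k} q z with hu
  set v : V → ℕ := fun z => b j z - cnt {k} q z + cnt {k} p z with hv
  have hux : ∀ z, u z = b i z - (if z = x then 1 else 0) + (if z = y then 1 else 0) := by
    intro z
    rw [hu]
    simp only [hcp, hcq]
  have hvx : ∀ z, v z = b j z - (if z = y then 1 else 0) + (if z = x then 1 else 0) := by
    intro z
    rw [hv]
    simp only [hcp, hcq]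
  have hstep : Step B b (upd b i j u v) i j x y := by
    refine ⟨hij, hb, upd_mem b hij hb (hS {k}).1 (hS {k}).2, by omega, by omega, ?_, ?_, ?_⟩
    · intro z
      rw [upd_i b hij, hux]
      by_cases h : z = x
      · subst h
        rw [if_pos rfl, if_neg hxy]
        omega
      · rw [if_neg h]
        omega
    · intro z
      rw [upd_j, hvx]
      by_cases h : z = y
      · subst h
        rw [if_pos rfl, if_neg hxy.symm]
        omega
      · rw [if_neg h]
        omega
    · intro l h1 h2
      exact upd_k b h1 h2 u v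
  have hcol : ∀ z, u z + v z = b i z + b j z := by
    intro z
    rw [hux, hvx]
    by_cases h : z = x
    · subst h
      rw [if_pos rfl, if_neg hxy]
      omega
    · rw [if_neg h]
      by_cases h' : z = y
      · subst h'
        rw [if_pos rfl]
        omega
      · rw [if_neg h']
        omega
  have hlt : (∑ z, (u z) ^ 2) + (∑ z, (v z) ^ 2) < (∑ z, (b i z) ^ 2) + (∑ z, (b j z) ^ 2) := by
    rw [← Finset.sum_add_distrib, ← Finset.sum_add_distrib]
    refine Finset.sum_lt_sum (fun z _ => ?_) ⟨x, Finset.mem_univ _, ?_⟩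
    · rw [hux, hvx]
      by_cases h : z = x
      · subst h
        rw [if_pos rfl, if_neg hxy]
        obtain ⟨e, he⟩ := Nat.exists_eq_add_of_lt hx
        rw [he]
        have : b j z + 1 + e + 1 - 1 + 0 = b j z + 1 + e := by omega
        rw [this]
        simp only [Nat.sub_zero]
        nlinarith
      · rw [if_neg h]
        by_cases h' : z = y
        · subst h'
          rw [if_pos rfl]
          obtain ⟨e, he⟩ : ∃ e, b j y = b i y + e + 1 := ⟨b j y - b i y - 1, by omega⟩
          rw [he]
          have : b i y + e + 1 - 1 + 0 = b i y + e := by omega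
          rw [this]
          simp only [Nat.sub_zero]
          nlinarith
        · rw [if_neg h']
          simp
    · rw [hux, hvx, if_pos rfl, if_neg hxy]
      obtain ⟨e, he⟩ := Nat.exists_eq_add_of_lt hx
      rw [he]
      have : b j x + 1 + e + 1 - 1 + 0 = b j x + 1 + e := by omega
      rw [this]
      simp only [Nat.sub_zero]
      nlinarith
  have hsum2 : ∑ l, ∑ z, (upd b i j u v l z) ^ 2 < n := by
    have := sum_two (fun l => ∑ z, (b l z) ^ 2) (fun l => ∑ z, (upd b i j u v l z) ^ 2) i j hij
      (fun l h1 h2 => by simp only [upd_k b h1 h2 u v])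
    simp only [upd_i b hij, upd_j, hn] at this
    omega
  obtain ⟨b', h1, h2, h3, h4⟩ := ih _ hsum2 (upd b i j u v) hstep.mem' rfl
  refine ⟨b', h1, (hF _ _ _ _ _ _ hstep).trans h2, fun z => ?_, h4⟩
  rw [h3]
  have := sum_two (fun l => b l z) (fun l => upd b i j u v l z) i j hij
      (fun l h1 h2 => by simp only [upd_k b h1 h2 u v])
  simp only [upd_i b hij, upd_j] at this
  have := hcol z
  omega

/-- distance of two numbers -/
def dst (a b : ℕ) : ℕ := (a - b) + (b - a)

lemma dst_eq_zero {a b : ℕ} (h : dst a b = 0) : a = b := by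
  unfold dst at h
  omega

/-- Two balanced families with the same sums are connected. -/
lemma connect (hB : PairProp B) (d : ℕ) (hdeg : ∀ a ∈ B, ∑ x, a x = d)
    (hF : ∀ b b' i j x y, Step B b b' i j x y → F b = F b') (t : V → ℕ) :
    ∀ n : ℕ, ∀ b c : ι → V → ℕ, (∀ k, b k ∈ B) → (∀ k, c k ∈ B) →
      (∀ x, ∑ k, b k x = ∑ k, c k x) → (∀ k x, t x ≤ b k x ∧ b k x ≤ t x + 1) →
      (∀ k x, t x ≤ c k x ∧ c k x ≤ t x + 1) →
      (∑ k, ∑ x, dst (b k x) (c k x) = n) → F b = F c := by
  intro n
  induction n using Nat.strong_induction_on with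
  | _ n ih =>
  intro b c hb hc hsum hbt hct hn
  by_cases hbc : b = c
  · rw [hbc]
  -- find `i` and `x`
  obtain ⟨i, x, hix⟩ : ∃ i x, c i x < b i x := by
    by_contra hcon
    push Not at hcon
    apply hbc
    funext i
    have h1 : ∑ x, b i x = ∑ x, c i x := by rw [hdeg _ (hb i), hdeg _ (hc i)]
    have h2 := (Finset.sum_eq_sum_iff_of_le (fun x _ => hcon i x)).1 h1
    funext x
    exact h2 x (Finset.mem_univ _)
  obtain ⟨j, hjx⟩ : ∃ j, b j x < c j x := by
    by_contra hcon
    push Not at hcon
    have h2 := (Finset.sum_eq_sum_iff_of_le (fun k _ => hcon k)).1 (hsum x).symm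
    have := h2 i (Finset.mem_univ _)
    omega
  have hij : i ≠ j := by
    rintro rfl
    omega
  obtain ⟨m, p, q, hp, hq, hS⟩ := hB.both (b i) (b j) (hb i) (hb j)
  obtain ⟨m', p', q', hp', hq', hS'⟩ := hB.both (c i) (c j) (hc i) (hc j)
  have hb1 : ∀ x, b i x ≤ b j x + 1 := fun x => by
    have := hbt i x
    have := hbt j x
    omega
  have hb2 : ∀ x, b j x ≤ b i x + 1 := fun x => by
    have := hbt i x
    have := hbt j x
    omega
  have hc1 : ∀ x, c i x ≤ c j x + 1 := fun x => by
    have := hct i x
    have := hct j x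
    omega
  have hc2 : ∀ x, c j x ≤ c i x + 1 := fun x => by
    have := hct i x
    have := hct j x
    omega
  obtain ⟨f, hf1, hf2⟩ := two_matchings p q p' q'
    (inj_of_cnt p fun x => by rw [hp]; have := hb1 x; omega)
    (inj_of_cnt q fun x => by rw [hq]; have := hb2 x; omega)
    (ne_of_cnt p q _ _ hp hq)
    (inj_of_cnt p' fun x => by rw [hp']; have := hc1 x; omega)
    (inj_of_cnt q' fun x => by rw [hq']; have := hc2 x; omega)
    (ne_of_cnt p' q' _ _ hp' hq')
  obtain ⟨r1, r2, r3⟩ := recolour B F hF b hb i j hij hb1 hb2 p q hp hq hS f hf1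
  obtain ⟨s1, s2, s3⟩ := recolour B F hF c hc i j hij hc1 hc2 p' q' hp' hq' hS' f hf2
  rw [r1, s1]
  have hle : ∀ z, dst (srt f (b i) (b j) z) (srt f (c i) (c j) z)
      + dst (srt (fun x => !f x) (b i) (b j) z) (srt (fun x => !f x) (c i) (c j) z)
      ≤ dst (b i z) (c i z) + dst (b j z) (c j z) := by
    intro z
    unfold srt dst
    by_cases h : f z = false
    · simp only [h, Bool.not_false, if_true]
      rw [if_neg (by simp), if_neg (by simp)]
      omega
    · rw [Bool.not_eq_false] at h
      simp only [h, Bool.not_true, if_true]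
      rw [if_neg (by simp), if_neg (by simp)]
      omega
  have hltx : dst (srt f (b i) (b j) x) (srt f (c i) (c j) x)
      + dst (srt (fun x => !f x) (b i) (b j) x) (srt (fun x => !f x) (c i) (c j) x)
      < dst (b i x) (c i x) + dst (b j x) (c j x) := by
    have := hbt i x
    have := hbt j x
    have := hct i x
    have := hct j x
    unfold srt dst
    by_cases h : f x = false
    · simp only [h, Bool.not_false, if_true]
      rw [if_neg (by simp), if_neg (by simp)]
      omega
    · rw [Bool.not_eq_false] at h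
      simp only [h, Bool.not_true, if_true]
      rw [if_neg (by simp), if_neg (by simp)]
      omega
  have hlt : ∑ k, ∑ z, dst (upd b i j (srt f (b i) (b j)) (srt (fun x => !f x) (b i) (b j)) k z)
      (upd c i j (srt f (c i) (c j)) (srt (fun x => !f x) (c i) (c j)) k z) < n := by
    have h1 := sum_two (fun l => ∑ z, dst (b l z) (c l z))
      (fun l => ∑ z, dst (upd b i j (srt f (b i) (b j)) (srt (fun x => !f x) (b i) (b j)) l z)
      (upd c i j (srt f (c i) (c j)) (srt (fun x => !f x) (c i) (c j)) l z)) i j hij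
      (fun l h1 h2 => by simp only [upd_k b h1 h2, upd_k c h1 h2])
    simp only [upd_i b hij, upd_j, upd_i c hij, hn] at h1
    have h2 : (∑ z, dst (srt f (b i) (b j) z) (srt f (c i) (c j) z))
      + (∑ z, dst (srt (fun x => !f x) (b i) (b j) z) (srt (fun x => !f x) (c i) (c j) z))
      < (∑ z, dst (b i z) (c i z)) + (∑ z, dst (b j z) (c j z)) := by
      rw [← Finset.sum_add_distrib, ← Finset.sum_add_distrib]
      exact Finset.sum_lt_sum (fun z _ => hle z) ⟨x, Finset.mem_univ _, hltx⟩
    omega
  have hsrt : ∀ (u v : V → ℕ) (f : V → Bool) z, srt f u v z + srt (fun x => !f x) u v z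
      = u z + v z := by
    intro u v f z
    unfold srt
    by_cases h : f z = false
    · simp only [h, Bool.not_false, if_true]
      rw [if_neg (by simp)]
      omega
    · rw [Bool.not_eq_false] at h
      simp only [h, Bool.not_true, if_true]
      rw [if_neg (by simp)]
      omega
  have hcol : ∀ (b : ι → V → ℕ) z,
      ∑ k, upd b i j (srt f (b i) (b j)) (srt (fun x => !f x) (b i) (b j)) k z
        = ∑ k, b k z := by
    intro b z
    have h1 := sum_two (fun l => b l z)
      (fun l => upd b i j (srt f (b i) (b j)) (srt (fun x => !f x) (b i) (b j)) l z) i j hij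
      (fun l h1 h2 => by simp only [upd_k b h1 h2])
    simp only [upd_i b hij, upd_j] at h1
    have h2 := hsrt (b i) (b j) f z
    omega
  have hbal : ∀ (b : ι → V → ℕ), (∀ k x, t x ≤ b k x ∧ b k x ≤ t x + 1) →
      ∀ k x, t x ≤ upd b i j (srt f (b i) (b j)) (srt (fun x => !f x) (b i) (b j)) k x ∧
        upd b i j (srt f (b i) (b j)) (srt (fun x => !f x) (b i) (b j)) k x ≤ t x + 1 := by
    intro b hbt k x
    have h1 := hbt i x
    have h2 := hbt j x
    by_cases hk1 : k = i
    · rw [hk1, upd_i b hij]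
      unfold srt
      split_ifs <;> omega
    · by_cases hk2 : k = j
      · rw [hk2, upd_j]
        unfold srt
        split_ifs <;> omega
      · rw [upd_k b hk1 hk2]
        exact hbt k x
  exact ih _ hlt _ _ (upd_mem b hij hb r2 r3) (upd_mem c hij hc s2 s3)
    (fun z => by rw [hcol, hcol, hsum]) (hbal b hbt) (hbal c hct) rfl

/-- The core theorem. -/
theorem core (hB : PairProp B) (d : ℕ) (hdeg : ∀ a ∈ B, ∑ x, a x = d)
    (hF : ∀ b b' i j x y, Step B b b' i j x y → F b = F b')
    (b c : ι → V → ℕ) (hb : ∀ k, b k ∈ B) (hc : ∀ k, c k ∈ B)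
    (hsum : ∀ x, ∑ k, b k x = ∑ k, c k x) : F b = F c := by
  obtain ⟨b', b1, b2, b3, b4⟩ := balance B F hB hF _ b hb rfl
  obtain ⟨c', c1, c2, c3, c4⟩ := balance B F hB hF _ c hc rfl
  rw [b2, c2]
  have hbal : ∀ (b : ι → V → ℕ), (∀ i j x, b i x ≤ b j x + 1) → ∀ k x,
      (∑ k, b k x) / Fintype.card ι ≤ b k x ∧ b k x ≤ (∑ k, b k x) / Fintype.card ι + 1 := by
    intro b hb k x
    have hpos : 0 < Fintype.card ι := Fintype.card_pos_iff.2 ⟨k⟩
    constructor
    · by_contra hcon
      push Not at hcon
      have h1 : b k x + 1 ≤ (∑ k, b k x) / Fintype.card ι := hcon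
      rw [Nat.le_div_iff_mul_le hpos] at h1
      have h2 : ∑ l, b l x < ∑ l : ι, (b k x + 1) := by
        refine Finset.sum_lt_sum (fun l _ => hb l k x) ⟨k, Finset.mem_univ _, Nat.lt_succ_self _⟩
      rw [Finset.sum_const, Finset.card_univ, smul_eq_mul, mul_comm] at h2
      omega
    · have h1 : b k x - 1 ≤ (∑ k, b k x) / Fintype.card ι := by
        rw [Nat.le_div_iff_mul_le hpos]
        have h2 : ∑ l : ι, (b k x - 1) ≤ ∑ l, b l x :=
          Finset.sum_le_sum fun l _ => by have := hb k l x; omega
        rw [Finset.sum_const, Finset.card_univ, smul_eq_mul, mul_comm] at h2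
        exact h2
      omega
  refine connect B F hB d hdeg hF (fun x => (∑ k, b' k x) / Fintype.card ι) _ b' c' b1 c1
    (fun x => by rw [b3, c3, hsum]) (hbal b' b4) ?_ rfl
  intro k x
  have := hbal c' c4 k x
  rw [c3, ← hsum, ← b3] at this
  exact this

end Main

end

end Q41.TB
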