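import Mathlib

/-!
# Pairing lemma for bounded degree vectors (alternating trails)
-/

open Finset

namespace Q41.TB

variable {V : Type*}

/-- Multiset of endpoints of a multiset of edges (ordered pairs). -/
def ep (M : Multiset (V × V)) : Multiset V := M.map Prod.fst + M.map Prod.snd

lemma ep_add (M M' : Multiset (V × V)) : ep (M + M') = ep M + ep M' := by
  simp only [ep, Multiset.map_add]
  abel

lemma ep_zero : ep (0 : Multiset (V × V)) = 0 := by simp [ep]

lemma ep_singleton (e : V × V) : ep {e} = {e.1, e.2} := by
  simp only [ep, Multiset.map_singleton]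
  rfl

lemma card_ep (M : Multiset (V × V)) : Multiset.card (ep M) = 2 * Multiset.card M := by
  simp [ep]
  ring

/-- An alternating trail: edges `A` of the first multiset, edges `B` of the second, ends. -/
structure Piece (V : Type*) where
  A : Multiset (V × V)
  B : Multiset (V × V)
  P : Multiset V
  N : Multiset V

/-- Degree balance of a trail with two ends. -/
def Piece.Valid (x : Piece V) : Prop :=
  ep x.A + x.N = ep x.B + x.P ∧ Multiset.card x.P + Multiset.card x.N = 2

/-- Invariant of the decomposition. -/
structure Inv (Ma Mb : Multiset (V × V)) (L : Multiset (Piece V)) : Prop where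
  hA : (L.map Piece.A).sum ≤ Ma
  hB : (L.map Piece.B).sum ≤ Mb
  hE : ep Ma + (L.map Piece.N).sum = ep Mb + (L.map Piece.P).sum
  hv : ∀ x ∈ L, x.Valid

lemma sum_map_single (M : Multiset (V × V)) :
    (M.map (fun e => ({e} : Multiset (V × V)))).sum = M := by
  induction M using Multiset.induction_on with
  | empty => simp
  | cons a s ih => simp [ih]

lemma sum_map_ends (M : Multiset (V × V)) :
    (M.map (fun e => ({e.1, e.2} : Multiset V))).sum = ep M := by
  induction M using Multiset.induction_on with
  | empty => simp [ep_zero]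
  | cons a s ih =>
    rw [Multiset.map_cons, Multiset.sum_cons, ih, ← Multiset.singleton_add, ep_add, ep_singleton]

lemma exists_start (Ma Mb : Multiset (V × V)) : ∃ L, Inv Ma Mb L := by
  refine ⟨Ma.map (fun e => ⟨{e}, 0, {e.1, e.2}, 0⟩) + Mb.map (fun e => ⟨0, {e}, 0, {e.1, e.2}⟩),
    ?_, ?_, ?_, ?_⟩
  · simp only [Multiset.map_add, Multiset.map_map, Function.comp_def, Multiset.sum_add,
      sum_map_single]
    simp
  · simp only [Multiset.map_add, Multiset.map_map, Function.comp_def, Multiset.sum_add,
      sum_map_single]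
    simp
  · simp only [Multiset.map_add, Multiset.map_map, Function.comp_def, Multiset.sum_add,
      sum_map_ends]
    simp [add_comm]
  · intro x hx
    rw [Multiset.mem_add] at hx
    rcases hx with hx | hx
    · obtain ⟨e, -, rfl⟩ := Multiset.mem_map.1 hx
      exact ⟨by simp [ep_zero, ep_singleton], by simp⟩
    · obtain ⟨e, -, rfl⟩ := Multiset.mem_map.1 hx
      exact ⟨by simp [ep_zero, ep_singleton], by simp⟩

lemma mem_sum_map {α β : Type*} (L : Multiset α) (f : α → Multiset β) (v : β)
    (h : v ∈ (L.map f).sum) : ∃ x ∈ L, v ∈ f x := by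
  induction L using Multiset.induction_on with
  | empty => simp at h
  | cons a s ih =>
    rw [Multiset.map_cons, Multiset.sum_cons, Multiset.mem_add] at h
    rcases h with h | h
    · exact ⟨a, Multiset.mem_cons_self _ _, h⟩
    · obtain ⟨x, hx, hv⟩ := ih h
      exact ⟨x, Multiset.mem_cons_of_mem hx, hv⟩

variable [DecidableEq V]

lemma exists_reduced (Ma Mb : Multiset (V × V)) :
    ∀ n : ℕ, ∀ L : Multiset (Piece V), Multiset.card L = n → Inv Ma Mb L →
      ∃ L', Inv Ma Mb L' ∧ ∀ v, v ∈ (L'.map Piece.P).sum → v ∉ (L'.map Piece.N).sum := by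
  intro n
  induction n with
  | zero =>
    intro L hL hI
    refine ⟨L, hI, ?_⟩
    rw [Multiset.card_eq_zero] at hL
    subst hL
    simp
  | succ n ih =>
    intro L hL hI
    by_cases h : ∀ v, v ∈ (L.map Piece.P).sum → v ∉ (L.map Piece.N).sum
    · exact ⟨L, hI, h⟩
    push Not at h
    obtain ⟨v, hP, hN⟩ := h
    obtain ⟨x, hx, hxP⟩ := mem_sum_map L _ v hP
    obtain ⟨L1, rfl⟩ := Multiset.exists_cons_of_mem hx
    obtain ⟨P', hP'⟩ := Multiset.exists_cons_of_mem hxP
    have hvx : x.Valid := hI.hv x (Multiset.mem_cons_self _ _)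
    obtain ⟨hA, hB, hE, hv⟩ := hI
    rw [Multiset.map_cons, Multiset.sum_cons] at hA hB hN
    rw [Multiset.map_cons, Multiset.sum_cons, Multiset.map_cons, Multiset.sum_cons] at hE
    rw [Multiset.card_cons] at hL
    by_cases hxN : v ∈ x.N
    · -- closed trail: drop it
      obtain ⟨N', hN'⟩ := Multiset.exists_cons_of_mem hxN
      have hc := hvx.2
      rw [hP', hN', Multiset.card_cons, Multiset.card_cons] at hc
      have hP0 : P' = 0 := Multiset.card_eq_zero.1 (by omega)
      have hN0 : N' = 0 := Multiset.card_eq_zero.1 (by omega)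
      subst hP0 hN0
      refine ih L1 (by omega) ⟨?_, ?_, ?_, ?_⟩
      · exact le_trans (Multiset.le_add_left _ _) hA
      · exact le_trans (Multiset.le_add_left _ _) hB
      · rw [hP', hN'] at hE
        have : (v ::ₘ (0 : Multiset V)) + (ep Ma + (L1.map Piece.N).sum)
            = (v ::ₘ 0) + (ep Mb + (L1.map Piece.P).sum) := by
          calc (v ::ₘ (0 : Multiset V)) + (ep Ma + (L1.map Piece.N).sum)
              = ep Ma + ((v ::ₘ 0) + (L1.map Piece.N).sum) := by abel
            _ = ep Mb + ((v ::ₘ 0) + (L1.map Piece.P).sum) := hE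
            _ = _ := by abel
        exact add_left_cancel this
      · intro y hy
        exact hv y (Multiset.mem_cons_of_mem hy)
    · rw [Multiset.mem_add] at hN
      have hN1 := hN.resolve_left hxN
      obtain ⟨y, hy, hyN⟩ := mem_sum_map L1 _ v hN1
      obtain ⟨L2, rfl⟩ := Multiset.exists_cons_of_mem hy
      obtain ⟨N', hN'⟩ := Multiset.exists_cons_of_mem hyN
      have hvy : y.Valid := hv y (Multiset.mem_cons_of_mem (Multiset.mem_cons_self _ _))
      rw [Multiset.map_cons, Multiset.sum_cons] at hA hB
      rw [Multiset.map_cons, Multiset.sum_cons, Multiset.map_cons, Multiset.sum_cons] at hE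
      rw [Multiset.card_cons] at hL
      refine ih (⟨x.A + y.A, x.B + y.B, P' + y.P, x.N + N'⟩ ::ₘ L2)
        (by rw [Multiset.card_cons]; omega) ⟨?_, ?_, ?_, ?_⟩
      · rw [Multiset.map_cons, Multiset.sum_cons]
        rw [← add_assoc] at hA
        exact hA
      · rw [Multiset.map_cons, Multiset.sum_cons]
        rw [← add_assoc] at hB
        exact hB
      · rw [Multiset.map_cons, Multiset.sum_cons, Multiset.map_cons, Multiset.sum_cons]
        rw [hP', hN', ← Multiset.singleton_add, ← Multiset.singleton_add] at hE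
        have : ({v} : Multiset V) + (ep Ma + (x.N + N' + (L2.map Piece.N).sum))
            = {v} + (ep Mb + (P' + y.P + (L2.map Piece.P).sum)) := by
          calc ({v} : Multiset V) + (ep Ma + (x.N + N' + (L2.map Piece.N).sum))
              = ep Ma + (x.N + ({v} + N' + (L2.map Piece.N).sum)) := by abel
            _ = ep Mb + ({v} + P' + (y.P + (L2.map Piece.P).sum)) := hE
            _ = _ := by abel
        exact add_left_cancel this
      · intro z hz
        rw [Multiset.mem_cons] at hz
        rcases hz with rfl | hz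
        · refine ⟨?_, ?_⟩
          · have h1 := hvx.1
            have h2 := hvy.1
            rw [hP', ← Multiset.singleton_add] at h1
            rw [hN', ← Multiset.singleton_add] at h2
            have : ({v} : Multiset V) + (ep (x.A + y.A) + (x.N + N'))
                = {v} + (ep (x.B + y.B) + (P' + y.P)) := by
              rw [ep_add, ep_add]
              calc ({v} : Multiset V) + (ep x.A + ep y.A + (x.N + N'))
                  = (ep x.A + x.N) + (ep y.A + ({v} + N')) := by abel
                _ = (ep x.B + ({v} + P')) + (ep y.B + y.P) := by rw [h1, h2]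
                _ = _ := by abel
            exact add_left_cancel this
          · have h1 := hvx.2
            have h2 := hvy.2
            rw [hP', Multiset.card_cons] at h1
            rw [hN', Multiset.card_cons] at h2
            simp only [Multiset.card_add]
            omega
        · exact hv z (Multiset.mem_cons_of_mem (Multiset.mem_cons_of_mem hz))

/-- Degree vectors, bounded by `c`, of multisets of `n` edges. -/
def Bas (E : V → V → Prop) (c : V → ℕ) (n : ℕ) : Set (V → ℕ) :=
  {a | (∃ M : Multiset (V × V), (∀ e ∈ M, E e.1 e.2) ∧ Multiset.card M = n ∧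
    ∀ x, a x = (ep M).count x) ∧ ∀ x, a x ≤ c x}

lemma ep_sub_add (M A : Multiset (V × V)) (h : A ≤ M) : ep (M - A) + ep A = ep M := by
  rw [← ep_add, Multiset.sub_add_cancel h]

/-- In a reduced decomposition every trail has one positive and one negative end. -/
lemma ends_one (E : V → V → Prop) (c : V → ℕ) (n : ℕ) (hmax : ∀ a, a ∉ Bas E c (n + 1))
    (Ma Mb : Multiset (V × V)) (hEa : ∀ e ∈ Ma, E e.1 e.2) (hEb : ∀ e ∈ Mb, E e.1 e.2)
    (hb : Multiset.card Mb = n) (hca : ∀ x, (ep Ma).count x ≤ c x)
    (hcb : ∀ x, (ep Mb).count x ≤ c x)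
    (x : Piece V) (hx : x.Valid) (hxA : x.A ≤ Ma) (hxB : x.B ≤ Mb) (SP SN : Multiset V)
    (hE : ep Ma + SN = ep Mb + SP) (hred : ∀ v, v ∈ SP → v ∉ SN) (hxP : x.P ≤ SP) :
    Multiset.card x.P ≤ 1 := by
  by_contra hcon
  obtain ⟨h1, h2⟩ := hx
  have hP2 : Multiset.card x.P = 2 := by omega
  have hN0 : Multiset.card x.N = 0 := by omega
  have hN : x.N = 0 := Multiset.card_eq_zero.1 hN0
  have hcard : Multiset.card x.A = Multiset.card x.B + 1 := by
    have := congrArg Multiset.card h1
    simp only [Multiset.card_add, card_ep] at this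
    omega
  refine hmax (fun v => (ep (Mb - x.B + x.A)).count v) ⟨⟨Mb - x.B + x.A, ?_, ?_, fun _ => rfl⟩, ?_⟩
  · intro e he
    rw [Multiset.mem_add] at he
    rcases he with he | he
    · exact hEb e (Multiset.mem_of_le (Multiset.sub_le_self _ _) he)
    · exact hEa e (Multiset.mem_of_le hxA he)
  · rw [Multiset.card_add, Multiset.card_sub hxB]
    have := Multiset.card_le_card hxB
    omega
  · intro v
    have e1 := congrArg (Multiset.count v) (ep_sub_add Mb x.B hxB)
    have e2 := congrArg (Multiset.count v) h1
    have e3 := congrArg (Multiset.count v) hE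
    have e4 := Multiset.count_le_of_le v hxP
    simp only [Multiset.count_add] at e1 e2 e3
    rw [hN] at e2
    simp only [Multiset.count_zero] at e2
    simp only [ep_add, Multiset.count_add]
    have h5 := hca v
    have h6 := hcb v
    by_cases hv : v ∈ SP
    · have := Multiset.count_eq_zero_of_notMem (hred v hv)
      omega
    · have := Multiset.count_eq_zero_of_notMem hv
      omega

lemma list_le_sum (l : List (Piece V)) (f : Piece V → Multiset (V × V)) (M : Multiset (V × V))
    (h : (l.map f).sum ≤ M) (S : Finset (Fin l.length)) : (∑ i ∈ S, f l[i.1]) ≤ M := by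
  rw [← Fin.sum_univ_fun_getElem] at h
  exact le_trans (Finset.sum_le_sum_of_subset (Finset.subset_univ S)) h

lemma count_sum_pair {ι : Type*} (S : Finset ι) (p : ι → V) (P : ι → Multiset V)
    (h : ∀ i ∈ S, P i = {p i}) (x : V) :
    (∑ i ∈ S, P i).count x = (S.filter (fun i => p i = x)).card := by
  classical
  rw [Multiset.count_sum', Finset.card_filter]
  refine Finset.sum_congr rfl fun i hi => ?_
  rw [h i hi, Multiset.count_singleton]
  by_cases hx : x = p i
  · simp [hx]
  · rw [if_neg hx, if_neg (fun h => hx h.symm)]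

lemma ep_sum {ι : Type*} (S : Finset ι) (A : ι → Multiset (V × V)) :
    ep (∑ i ∈ S, A i) = ∑ i ∈ S, ep (A i) := by
  classical
  induction S using Finset.induction_on with
  | empty => simp [ep_zero]
  | insert a s ha ih => rw [Finset.sum_insert ha, Finset.sum_insert ha, ep_add, ih]

/-- The pairing lemma. -/
theorem pairing (E : V → V → Prop) (c : V → ℕ) (n : ℕ) (hmax : ∀ a, a ∉ Bas E c (n + 1))
    (a b : V → ℕ) (ha : a ∈ Bas E c n) (hb : b ∈ Bas E c n) :
    ∃ (m : ℕ) (p q : Fin m → V),
      (∀ x, (univ.filter (fun i => p i = x)).card = a x - b x) ∧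
      (∀ x, (univ.filter (fun i => q i = x)).card = b x - a x) ∧
      ∀ S : Finset (Fin m), (fun x => a x - (S.filter (fun i => p i = x)).card
        + (S.filter (fun i => q i = x)).card) ∈ Bas E c n := by
  obtain ⟨⟨Ma, hEa, hMa, hae⟩, hac⟩ := ha
  obtain ⟨⟨Mb, hEb, hMb, hbe⟩, hbc⟩ := hb
  obtain ⟨L0, hL0⟩ := exists_start Ma Mb
  obtain ⟨L, hL, hred⟩ := exists_reduced Ma Mb _ L0 rfl hL0
  obtain ⟨l, rfl⟩ : ∃ l : List (Piece V), (l : Multiset (Piece V)) = L := Quotient.exists_rep L
  obtain ⟨hA, hB, hE, hv⟩ := hL
  simp only [Multiset.map_coe, Multiset.sum_coe] at hA hB hE hred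
  have hPS : (l.map Piece.P).sum = ∑ i : Fin l.length, (l[i.1]).P :=
    (Fin.sum_univ_fun_getElem l Piece.P).symm
  have hNS : (l.map Piece.N).sum = ∑ i : Fin l.length, (l[i.1]).N :=
    (Fin.sum_univ_fun_getElem l Piece.N).symm
  have hval : ∀ i : Fin l.length, (l[i.1]).Valid := fun i =>
    hv _ (by simp [Multiset.mem_coe])
  have hleA : ∀ i : Fin l.length, (l[i.1]).A ≤ Ma := fun i => by
    have := list_le_sum l Piece.A Ma hA {i}
    simpa using this
  have hleB : ∀ i : Fin l.length, (l[i.1]).B ≤ Mb := fun i => by
    have := list_le_sum l Piece.B Mb hB {i}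
    simpa using this
  have hP1 : ∀ i : Fin l.length, Multiset.card (l[i.1]).P ≤ 1 := by
    intro i
    refine ends_one E c n hmax Ma Mb hEa hEb hMb (fun x => by rw [← hae]; exact hac x)
      (fun x => by rw [← hbe]; exact hbc x) _ (hval i) (hleA i) (hleB i) _ _ hE hred ?_
    rw [hPS]
    exact Finset.single_le_sum (f := fun i : Fin l.length => (l[i.1]).P)
      (fun _ _ => Multiset.zero_le _) (Finset.mem_univ i)
  have hN1 : ∀ i : Fin l.length, Multiset.card (l[i.1]).N ≤ 1 := by
    intro i
    have hv' : (⟨(l[i.1]).B, (l[i.1]).A, (l[i.1]).N, (l[i.1]).P⟩ : Piece V).Valid :=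
      ⟨(hval i).1.symm, by have := (hval i).2; simp only; omega⟩
    refine ends_one E c n hmax Mb Ma hEb hEa hMa (fun x => by rw [← hbe]; exact hbc x)
      (fun x => by rw [← hae]; exact hac x) _ hv' (hleB i) (hleA i) _ _ hE.symm
      (fun v h1 h2 => hred v h2 h1) ?_
    rw [hNS]
    exact Finset.single_le_sum (f := fun i : Fin l.length => (l[i.1]).N)
      (fun _ _ => Multiset.zero_le _) (Finset.mem_univ i)
  have hP : ∀ i : Fin l.length, ∃ v, (l[i.1]).P = {v} := fun i =>
    Multiset.card_eq_one.1 (by have := (hval i).2; have := hP1 i; have := hN1 i; omega)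
  have hN : ∀ i : Fin l.length, ∃ v, (l[i.1]).N = {v} := fun i =>
    Multiset.card_eq_one.1 (by have := (hval i).2; have := hP1 i; have := hN1 i; omega)
  choose p hp using hP
  choose q hq using hN
  have hdisj : ∀ x, (l.map Piece.P).sum.count x = 0 ∨ (l.map Piece.N).sum.count x = 0 := by
    intro x
    by_cases hx : x ∈ (l.map Piece.P).sum
    · exact Or.inr (Multiset.count_eq_zero_of_notMem (hred x hx))
    · exact Or.inl (Multiset.count_eq_zero_of_notMem hx)
  have hcP : ∀ x, (l.map Piece.P).sum.count x = (univ.filter (fun i => p i = x)).card := by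
    intro x
    rw [hPS]
    exact count_sum_pair univ p _ (fun i _ => hp i) x
  have hcN : ∀ x, (l.map Piece.N).sum.count x = (univ.filter (fun i => q i = x)).card := by
    intro x
    rw [hNS]
    exact count_sum_pair univ q _ (fun i _ => hq i) x
  have hEx : ∀ x, a x + (univ.filter (fun i => q i = x)).card
      = b x + (univ.filter (fun i => p i = x)).card := by
    intro x
    have := congrArg (Multiset.count x) hE
    rw [Multiset.count_add, Multiset.count_add, ← hae, ← hbe, hcP, hcN] at this
    exact this
  refine ⟨l.length, p, q, ?_, ?_, ?_⟩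
  · intro x
    have h1 := hEx x
    have h2 := hdisj x
    rw [hcP, hcN] at h2
    omega
  · intro x
    have h1 := hEx x
    have h2 := hdisj x
    rw [hcP, hcN] at h2
    omega
  · intro S
    have hSA := list_le_sum l Piece.A Ma hA S
    have hSB := list_le_sum l Piece.B Mb hB S
    have hbal : ep (∑ i ∈ S, (l[i.1]).A) + ∑ i ∈ S, (l[i.1]).N
        = ep (∑ i ∈ S, (l[i.1]).B) + ∑ i ∈ S, (l[i.1]).P := by
      rw [ep_sum, ep_sum, ← Finset.sum_add_distrib, ← Finset.sum_add_distrib]
      exact Finset.sum_congr rfl fun i _ => (hval i).1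
    have hcardAB : Multiset.card (∑ i ∈ S, (l[i.1]).A) = Multiset.card (∑ i ∈ S, (l[i.1]).B) := by
      rw [Multiset.card_sum, Multiset.card_sum]
      refine Finset.sum_congr rfl fun i _ => ?_
      have h1 := congrArg Multiset.card (hval i).1
      rw [hp i, hq i] at h1
      simp only [Multiset.card_add, card_ep, Multiset.card_singleton] at h1
      omega
    have hval' : ∀ x, a x - (S.filter (fun i => p i = x)).card
        + (S.filter (fun i => q i = x)).card
        = (ep (Ma - (∑ i ∈ S, (l[i.1]).A) + ∑ i ∈ S, (l[i.1]).B)).count x := by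
      intro x
      have e1 := congrArg (Multiset.count x) (ep_sub_add Ma _ hSA)
      have e2 := congrArg (Multiset.count x) hbal
      simp only [Multiset.count_add] at e1 e2
      rw [count_sum_pair S p (fun i => (l[i.1]).P) (fun i _ => hp i) x,
        count_sum_pair S q (fun i => (l[i.1]).N) (fun i _ => hq i) x] at e2
      rw [← hae] at e1
      rw [ep_add, Multiset.count_add]
      have h3 : (S.filter (fun i => p i = x)).card ≤ (univ.filter (fun i => p i = x)).card :=
        Finset.card_le_card (Finset.filter_subset_filter _ (Finset.subset_univ _))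
      have h4 := hEx x
      have h5 := hdisj x
      rw [hcP, hcN] at h5
      omega
    refine ⟨⟨_, ?_, ?_, hval'⟩, ?_⟩
    · intro e he
      rw [Multiset.mem_add] at he
      rcases he with he | he
      · exact hEa e (Multiset.mem_of_le (Multiset.sub_le_self _ _) he)
      · exact hEb e (Multiset.mem_of_le hSB he)
    · rw [Multiset.card_add, Multiset.card_sub hSA]
      have := Multiset.card_le_card hSA
      omega
    · intro x
      have h3 : (S.filter (fun i => q i = x)).card ≤ (univ.filter (fun i => q i = x)).card :=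
        Finset.card_le_card (Finset.filter_subset_filter _ (Finset.subset_univ _))
      have h4 := hEx x
      have h5 := hdisj x
      have h6 := hac x
      have h7 := hbc x
      rw [hcP, hcN] at h5
      simp only
      omega

end Q41.TB
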